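import Pool.Agent.H82.NTC.Stmts

/-!
# E2: the previous position is nearer to the woman than her own one
-/

set_option autoImplicit false

namespace Pool.NTC

open Pool.NET

theorem e2h_pos {A B : ℤ} (h1 : A < B) (h2 : -A < B) : |A| < |B| :=
  (abs_lt.2 ⟨by linarith, h1⟩).trans_le (le_abs_self B)

theorem e2h_neg {A B : ℤ} (h1 : A < -B) (h2 : -A < -B) : |A| < |B| :=
  (abs_lt.2 ⟨by linarith, h1⟩).trans_le (neg_le_abs B)

theorem e2h_J (X Y : ℤ) (h : X ≠ Y) : |4 * X + 1 - 4 * X| < |4 * X + 1 - 4 * Y| := by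
  rcases lt_or_gt_of_ne h with h1 | h1
  · exact e2h_neg (by linarith) (by linarith)
  · exact e2h_pos (by linarith) (by linarith)

theorem e2_thm : E2_S := by
  intro p e g h u hp t ht w hne
  obtain ⟨q0, gq, gW, We, eM, MS⟩ := hp
  obtain ⟨hp0, hp1⟩ := ht (pv2 h u w)
  obtain ⟨hw0, hw1⟩ := ht w
  generalize htp : t (pv2 h u w) = tp at *
  generalize htw : t w = tw at *
  obtain ⟨⟨c, r⟩, k⟩ := w
  cases k
  case J1 => simp only [prW, htp]; exact e2h_J _ _ hne
  case J2 => simp only [prW, htp]; exact e2h_J _ _ hne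
  case J3 => simp only [prW, htp]; exact e2h_J _ _ hne
  case J4 => simp only [prW, htp]; exact e2h_J _ _ hne
  all_goals
    simp only [prW, pv2]
    (try split_ifs) <;> simp only [fy] <;>
    first
      | exact e2h_pos (by linarith) (by linarith)
      | exact e2h_neg (by linarith) (by linarith)

end Pool.NTC
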