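import Pool.Agent.H82.NTC.Pot

/-!
# PMR: the potential of the women for the men of kind `R`
-/

set_option autoImplicit false

namespace Pool.NTC

open Pool.NET

/-- at least one column further -/
theorem pmr_step {S c d : ℤ} (hS : 0 < S) (h : c + 1 ≤ d) : S * c + S ≤ S * d := by
  nlinarith

theorem pmr_thm : PMk Ke.R := by
  intro p e g e' g' h u hp hp' hr v w s t hs0 hs1 ht0 ht1 hlt
  obtain ⟨q0, gq, gW, We, eM, MS⟩ := hp
  obtain ⟨-, gq', gW', We', eM', -⟩ := hp'
  obtain ⟨c, r⟩ := v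
  obtain ⟨⟨c', r'⟩, k'⟩ := w
  have hS : 0 < p.S := by linarith
  simp only [prM] at hlt
  have hA : |4 * (fx p e g ((c, r), Ke.R) - p.q) + 1 - 4 * (fx p e g ((c, r), Ke.R) + t)| =
      4 * p.q - 1 + 4 * t := by
    rw [abs_of_nonpos (by linarith)]
    ring
  rw [hA, abs_lt] at hlt
  obtain ⟨h1, h2⟩ := hlt
  simp only [Rel] at hr
  rcases lt_trichotomy c' c with hc | hc | hc
  · have hc2 := pmr_step hS (show c' + 1 ≤ c by omega)
    exfalso
    cases k' <;> simp only [fx] at h1 h2 <;> linarith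
  · subst hc
    cases k' <;> simp only [fx] at h1 h2 <;> simp only [lvM, sgM] <;>
    rcases hr with ⟨ha, hb⟩ | ⟨ha, hb⟩ | ⟨ha, hb⟩ <;>
    first
      | (exfalso; linarith)
      | exact Or.inr ⟨by trivial, by linarith⟩
  · have hc2 := pmr_step hS (show c + 1 ≤ c' by omega)
    exfalso
    cases k' <;> simp only [fx] at h1 h2 <;> linarith

end Pool.NTC
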