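import Pool.Agent.H82.NTC.Stmts

/-!
Board `ntc`, row XAJ4: crossings of an element with itself, first corner of kind `J4`
(after helper48's XAJ2).
-/

set_option autoImplicit false

namespace Pool.NTC

open Pool.NET

theorem xaj4_le (S a b : ℤ) (hS : 0 < S) (h : S * a < S * b + S) : a ≤ b := by
  by_contra hc
  push Not at hc
  have h1 : b + 1 ≤ a := hc
  have h2 : S * (b + 1) ≤ S * a := mul_le_mul_of_nonneg_left h1 hS.le
  have h3 : S * (b + 1) = S * b + S := by ring
  omega

theorem xaj4_thm : XSA Ke.J4 := by
  rintro ⟨q, W, M, S⟩ e g N h u ⟨q0, gq, gW, We, eM, MS⟩ hN uN ⟨a, b⟩ ⟨⟨c, r⟩, k⟩ hv hw h1 h2 h3 h4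
  simp only at q0 gq gW We eM MS
  have hS : 0 < S := by omega
  obtain ⟨-, hh⟩ := hv
  have e1 : S * (a - 1) = S * a - S := by ring
  cases k
  case NW =>
    exfalso
    simp only [lo, hi, fx, nx2] at h1 h2
    have k1 := xaj4_le S a c hS (by omega)
    have k2 := xaj4_le S c (a - 1) hS (by omega)
    omega
  case B =>
    exfalso
    simp only [lo, hi, fx, nx2] at h1 h2
    have k1 := xaj4_le S a c hS (by omega)
    have k2 := xaj4_le S c (a - 1) hS (by omega)
    omega
  case SE =>
    exfalso
    simp only [lo, hi, fx, nx2] at h1 h2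
    have k1 := xaj4_le S a c hS (by omega)
    have k2 := xaj4_le S c (a - 1) hS (by omega)
    omega
  case T =>
    exfalso
    simp only [lo, hi, fx, nx2] at h1 h2
    have k1 := xaj4_le S a c hS (by omega)
    have k2 := xaj4_le S c (a - 1) hS (by omega)
    omega
  case R =>
    exfalso
    simp only [lo, hi, jl, jh, fx, fy, nx2] at h1 h2 h3 h4
    have k1 := xaj4_le S (a - 1) c hS (by omega)
    have k2 := xaj4_le S c (a - 1) hS (by omega)
    have k3 := xaj4_le S b r hS (by omega)
    have k4 := xaj4_le S r b hS (by omega)
    have k5 : c = a - 1 := by omega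
    have k6 : r = b := by omega
    subst k5
    subst k6
    exact hw.2 hh
  case L =>
    exfalso
    simp only [lo, hi, jl, jh, fx, fy, nx2] at h1 h2 h3 h4
    have k1 := xaj4_le S a c hS (by omega)
    have k2 := xaj4_le S c a hS (by omega)
    have k3 := xaj4_le S b r hS (by omega)
    have k4 := xaj4_le S r b hS (by omega)
    have k5 : c = a := by omega
    have k6 : r = b := by omega
    subst k5
    subst k6
    exact hw.2 hh
  case J2 =>
    exfalso
    simp only [jl, jh, fy] at h3 h4
    have k3 := xaj4_le S (b + 1) r hS (by have : S * (b + 1) = S * b + S := by ring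
                                          omega)
    have k4 := xaj4_le S r b hS (by omega)
    omega
  case J3 =>
    exfalso
    simp only [jl, jh, fy] at h3 h4
    have k3 := xaj4_le S (b + 1) r hS (by have : S * (b + 1) = S * b + S := by ring
                                          omega)
    have k4 := xaj4_le S r b hS (by omega)
    omega
  case J4 =>
    left
    simp only [lo, hi, jl, jh, fx, fy, nx2] at h1 h2 h3 h4
    have k1 := xaj4_le S a c hS (by omega)
    have k2 := xaj4_le S c a hS (by omega)
    have k3 := xaj4_le S b r hS (by omega)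
    have k4 := xaj4_le S r b hS (by omega)
    have k5 : c = a := by omega
    have k6 : r = b := by omega
    rw [k5, k6]
  case J1 =>
    right
    simp only [lo, hi, jl, jh, fx, fy, nx2] at h1 h2 h3 h4
    have k1 := xaj4_le S (a - 1) c hS (by omega)
    have k2 := xaj4_le S c (a - 1) hS (by omega)
    have k3 := xaj4_le S b r hS (by omega)
    have k4 := xaj4_le S r b hS (by omega)
    have k5 : c = a - 1 := by omega
    have k6 : r = b := by omega
    simp only [nx2, k5, k6]

end Pool.NTC
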